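import Pool.Agent.W97.V20.Fin

/-!
# The order of vanishing of the Mazur-Tate element can be too small

Let `E : y² = x³ - 143x² - 169x` (conductor `3380 = 2² · 5 · 13²`; it is the twist by `13` of the
curve `y² = x³ - 11x² - x` of conductor `20`). It has split multiplicative reduction at `5` and
positive rank. The Mazur-Tate element is `θ_5 = ±9([1] - [2])`, with `R = ℤ` and
`G_5 = {[1], [2]}`; it lies in `I` but not in `I² = 2I`.
-/

set_option autoImplicit false

namespace Pool.Agent.Results.MP_b13df7_nt.OrderOfVanishingFails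

open Pool.Agent.W97.MT Pool.Agent.W97.V20

/-- **Negated form of Q1.** -/
theorem result :
    -- the curve `E : y² = x³ - 143x² - 169x`, a global minimal equation
    IsGloballyMinimal E13 ∧
    -- with split multiplicative reduction at `5`
    IsSplit E13 5 ∧
    -- and of rank at least `1`
    1 ≤ Module.rank ℤ (E13.map (Int.castRingHom ℚ)).toAffine.Point ∧
    -- the modular symbols `λ(a, 5)`
    (∃ s : ℂ, (s = 9 ∨ s = -9) ∧ lam E13 1 5 = s ∧ lam E13 2 5 = -s ∧ lam E13 3 5 = -s ∧
      lam E13 4 5 = s) ∧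
    -- the Mazur-Tate element `θ_5` over the smallest possible ring is not in the square of the
    -- augmentation ideal
    (∃ θ : MonoidAlgebra (RM E13 5) (GM 5), IsTheta E13 5 θ ∧ θ ∉ aug (RM E13 5) (GM 5) ^ 2) ∧
    -- so the conjecture is false
    ¬ OrderConjecture := by
  obtain ⟨ε, hε, h1, h2, h3, h4⟩ := lam_vals
  obtain ⟨θ, hθ⟩ := exists_theta (lam_unit h1 h2 h3 h4)
  have hn := not_mem hε (lam_unit h1 h2 h3 h4) θ hθ
  refine ⟨hmin.1, hmin.2.2.2.1, hrank, ⟨((9 * ε : ℤ) : ℂ), ?_, h1, ?_, ?_, h4⟩, ⟨θ, hθ, hn⟩,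
    not_conj θ hθ hn⟩
  · rcases hε with rfl | rfl
    · left; norm_num
    · right; norm_num
  · rw [h2]; push_cast; ring
  · rw [h3]; push_cast; ring

end Pool.Agent.Results.MP_b13df7_nt.OrderOfVanishingFails
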